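import Pool.Agent.Helper78.OE.GoalsC2

/-!
# Project OE (MP_fc0446_an): packet ARM, the law of the length of an arm
-/

set_option autoImplicit false

open MeasureTheory Pool.Agent.Helper73.OE Pool.Agent.Helper78.OE
open scoped ENNReal

namespace Pool.Agent.Helper53.OE

variable {H S L : Type} [Group H] (X : Sys H S L) [Fintype S] [Fintype L]

theorem sg_le_one {ε : ℝ} (h : 0 ≤ ε) : sg ε ≤ 1 := by
  unfold sg
  rw [← ENNReal.ofReal_one]
  exact ENNReal.ofReal_le_ofReal (by linarith)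

theorem arm {ε : ℝ} {μ : Measure (St H S L)} (C : Ctx X ε μ) (h : LONG X ε μ) : ARM X ε μ := by
  intro M v t κ K hm hd h1 hv
  have hT := test_next X C.meas ε hm hd h1 hv
  have e1 := h M (X.nb v t) (X.bar t) (X.tau κ) _ hT
  rw [C.strip v t K hm hd] at e1
  have mA : Measurable fun w : St H S L => ind (X.ArmOk (Om X ε w) M w.1 v t κ) :=
    meas_arm X C.meas C.locb ε M v t κ
  have e2 : ∫⁻ w, K w * ind (X.ArmOk (Om X ε w) M w.1 v t κ) ∂μ + sg ε ^ (M + 1) * ∫⁻ w, K w ∂μ =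
      ∫⁻ w, K w ∂μ := by
    have mK : Measurable fun w : St H S L => K w * ind (X.ArmOk (Om X ε w) M w.1 v t κ) :=
      hm.mul mA
    rw [pow_succ, mul_assoc, ← e1, ← lintegral_add_left mK]
    apply lintegral_congr
    intro w
    have e3 : ind (Om X ε w v t) * ind (X.Long (Om X ε w) w.1 M (X.nb v t) (X.bar t) (X.tau κ)) =
        ind (¬ X.ArmOk (Om X ε w) M w.1 v t κ) := by
      rw [← ind_and]
      apply ind_congr
      unfold Sys.ArmOk
      rw [Classical.not_imp, not_not]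
    rw [mul_assoc, e3, ← mul_add, ind_add_not, mul_one]
  have hfin : ∫⁻ w, K w ∂μ ≠ ∞ := by
    apply ne_top_of_le_ne_top ENNReal.one_ne_top
    calc ∫⁻ w, K w ∂μ ≤ ∫⁻ _, 1 ∂μ := lintegral_mono h1
      _ = 1 := by rw [lintegral_one, C.prob]
  have hs : sg ε ^ (M + 1) ≤ 1 := pow_le_one₀ zero_le (sg_le_one C.nonneg)
  have hfin2 : sg ε ^ (M + 1) * ∫⁻ w, K w ∂μ ≠ ∞ :=
    ENNReal.mul_ne_top (ne_top_of_le_ne_top ENNReal.one_ne_top hs) hfin
  rw [ENNReal.eq_sub_of_add_eq hfin2 e2]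
  unfold pE
  rw [ENNReal.sub_mul (fun _ _ => hfin), one_mul]

end Pool.Agent.Helper53.OE
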