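import Pool.Agent.Helper75.OE.GoalsB2

/-!
# Project OE (MP_fc0446_an): packet BALLC, all balls of the same radius have the same size
-/

set_option autoImplicit false

namespace Pool.Agent.Helper53.OE

open Pool.Agent.Helper73.OE Pool.Agent.Helper73.OE.Sys

theorem ballc : Pool.Agent.Helper75.OE.B_BALLC := by
  intro H S L _ X v r
  have h : X.ball v r = (fun z : H ↦ v * z) '' X.ball 1 r := by
    ext z
    constructor
    · intro hz
      refine ⟨v⁻¹ * z, ?_, mul_inv_cancel_left v z⟩
      have h1 : X.dist v z ≤ r := hz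
      have h2 : X.dist (v * 1) (v * (v⁻¹ * z)) = X.dist 1 (v⁻¹ * z) := X.dist_mul v 1 (v⁻¹ * z)
      rw [mul_one, mul_inv_cancel_left] at h2
      show X.dist 1 (v⁻¹ * z) ≤ r
      rw [← h2]
      exact h1
    · rintro ⟨w, hw, rfl⟩
      have h1 : X.dist 1 w ≤ r := hw
      have h2 : X.dist (v * 1) (v * w) = X.dist 1 w := X.dist_mul v 1 w
      rw [mul_one] at h2
      show X.dist v (v * w) ≤ r
      rw [h2]
      exact h1
  rw [h]
  exact Set.ncard_image_of_injective _ (mul_right_injective v)

end Pool.Agent.Helper53.OE
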