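import Pool.Agent.Helper75.OE.GoalsA

/-!
# Project OE (MP_fc0446_an): packet FLI, the flip back
-/

set_option autoImplicit false

namespace Pool.Agent.Helper53.OE

open Pool.Agent.Helper73.OE Pool.Agent.Helper73.OE.Sys Pool.Agent.Helper75.OE

variable {H S L : Type} [Group H] (X : Sys H S L)

theorem tau_inj {a b : L} (h : X.tau a = X.tau b) : a = b := by
  rw [← X.tau_tau a, ← X.tau_tau b, h]

theorem MA_mono {O : Edges H S} {A B : Set H} {f : Cfg H S L} (h : X.MA O A f) (hB : B ⊆ A) :
    X.MA O B f := fun v s hv hs ho => h v s (hB hv) (hB hs) ho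

/-- The basic fact. -/
theorem basic {O : Edges H S} {v : H} {p : S} {y : L} {f : Cfg H S L} (hy : y ≠ f v p)
    (hM : X.MA O (X.Sd v p) f) (s : S) (hs : s = (f v).symm y) :
    X.Sd (X.nb v s) (X.bar s) ⊆ X.Sd v p ∧
      (O v s → f (X.nb v s) (X.bar s) = X.tau y ∧ X.tau (f v p) ≠ f (X.nb v s) (X.bar s)) := by
  have h1 : f v s = y := by rw [hs]; simp
  have h2 : s ≠ p := by
    rintro rfl
    exact hy h1.symm
  have h3 := X.branch_subset (v := v) h2
  refine ⟨h3, ?_⟩
  intro ho
  have h4 : X.Mt f v s := hM v s (X.self_mem_Sd v p) (h3 (X.self_mem_Sd _ _)) ho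
  have h5 : f (X.nb v s) (X.bar s) = X.tau y := by
    rw [← h1]; exact h4
  refine ⟨h5, ?_⟩
  rw [h5]
  intro h6
  exact hy (tau_inj X h6).symm

open Classical in
/-- The first letter data of the flipped configuration. -/
theorem flip_at (h2 : A_FREC) {O : Edges H S} {v : H} {p : S} {y : L} {f : Cfg H S L}
    (hy : y ≠ f v p) (hM : X.MA O (X.Sd v p) f) :
    X.flip O v p y f v p = y ∧ (X.flip O v p y f v).symm (f v p) = (f v).symm y := by
  have e := (h2 H S L X O v p y f hy hM).1
  constructor
  · rw [e, Equiv.trans_apply, Equiv.swap_apply_left]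
  · rw [e, Equiv.symm_trans_apply, Equiv.symm_swap, Equiv.swap_apply_left]

theorem fli_long (h0 : A_LLOC) (h2 : A_FREC) (h3 : A_FLM) (O : Edges H S) (hO : X.Sym O) :
    ∀ (r : ℕ) (v : H) (p : S) (y : L) (f : Cfg H S L), y ≠ f v p → X.MA O (X.Sd v p) f →
      (X.Long O (X.flip O v p y f) r v p (f v p) ↔ X.Long O f r v p y) := by
  intro r
  induction r with
  | zero => intro v p y f _ _; exact Iff.rfl
  | succ r ih =>
    intro v p y f hy hM
    obtain ⟨a1, a2⟩ := flip_at X h2 hy hM
    obtain ⟨b1, b2⟩ := basic X hy hM _ rfl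
    have hF := h2 H S L X O v p y f hy hM
    change (O v ((X.flip O v p y f v).symm (f v p)) ∧
      X.Long O (X.flip O v p y f) r (X.nb v ((X.flip O v p y f v).symm (f v p)))
        (X.bar ((X.flip O v p y f v).symm (f v p))) (X.tau (X.flip O v p y f v p))) ↔
      (O v ((f v).symm y) ∧ X.Long O f r (X.nb v ((f v).symm y)) (X.bar ((f v).symm y))
        (X.tau (f v p)))
    rw [a2, a1]
    apply and_congr_right
    intro ho
    obtain ⟨c1, c2⟩ := b2 ho
    have hM' := MA_mono X hM b1
    rw [← c1]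
    have hI := ih _ _ _ f c2 hM'
    rw [← hI]
    have hF' := (flip_at X h2 c2 hM').1
    apply h0 H S L X O O _ _ _ _ _ _ (h3 H S L X O _ _ _ f hO c2 hM')
    · intro z hz
      apply hF.2.2.1 ho z
      rintro rfl
      exact X.notMem_Sd_bar _ _ hz
    · intro z r _ _; exact Iff.rfl
    · rw [hF']; exact c2.symm

open Classical in
theorem fli_flip (h1 : A_PLOC) (h2 : A_FREC) (h3 : A_FLM) (O : Edges H S) (hO : X.Sym O) :
    ∀ (n : ℕ) (z v : H) (p : S) (y : L) (f : Cfg H S L), X.dist v z = n → y ≠ f v p →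
      X.MA O (X.Sd v p) f →
      X.flip O v p (f v p) (X.flip O v p y f) z = f z := by
  intro n
  induction n with
  | zero =>
    intro z v p y f hd hy hM
    rw [X.dist_eq_zero] at hd
    subst hd
    obtain ⟨a1, a2⟩ := flip_at X h2 hy hM
    have hM2 := h3 H S L X O v p y f hO hy hM
    have hy2 : f v p ≠ X.flip O v p y f v p := by rw [a1]; exact hy.symm
    rw [(h2 H S L X O v p (f v p) (X.flip O v p y f) hy2 hM2).1, a1,
      (h2 H S L X O v p y f hy hM).1]
    ext t
    simp only [Equiv.trans_apply]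
    rw [Equiv.swap_comm y (f v p), Equiv.swap_apply_self]
  | succ n ih =>
    intro z v p y f hd hy hM
    have hzv : z ≠ v := by
      rintro rfl
      rw [X.dist_self] at hd
      omega
    obtain ⟨a1, a2⟩ := flip_at X h2 hy hM
    have hF := h2 H S L X O v p y f hy hM
    have hM2 := h3 H S L X O v p y f hO hy hM
    have hy2 : f v p ≠ X.flip O v p y f v p := by rw [a1]; exact hy.symm
    have hG := h2 H S L X O v p (f v p) (X.flip O v p y f) hy2 hM2
    obtain ⟨b1, b2⟩ := basic X hy hM _ rfl
    rw [a2, a1] at hG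
    by_cases ho : O v ((f v).symm y)
    · obtain ⟨c1, c2⟩ := b2 ho
      have hM' := MA_mono X hM b1
      have hgz : ∀ w, w ≠ v → X.flip O v p y f w = X.flip O (X.nb v ((f v).symm y))
          (X.bar ((f v).symm y)) (X.tau (f v p)) f w := hF.2.2.1 ho
      rw [hG.2.2.1 ho z hzv, ← c1]
      have hF' := flip_at X h2 c2 hM'
      have hP := h1 H S L X O O (X.nb v ((f v).symm y)) (X.bar ((f v).symm y))
        (f (X.nb v ((f v).symm y)) (X.bar ((f v).symm y)))
        (X.flip O (X.nb v ((f v).symm y)) (X.bar ((f v).symm y)) (X.tau (f v p)) f)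
        (X.flip O v p y f) (by rw [hF'.1]; exact c2.symm)
        (h3 H S L X O _ _ _ f hO c2 hM')
        (by
          intro w hw
          apply hgz
          rintro rfl
          exact X.notMem_Sd_bar _ _ hw)
        (fun _ _ _ _ => Iff.rfl) z (X.dist (X.nb v ((f v).symm y)) z)
      by_cases hz : z ∈ X.Sd (X.nb v ((f v).symm y)) (X.bar ((f v).symm y))
      · have hd' : X.dist (X.nb v ((f v).symm y)) z = n := by
          rw [X.mem_Sd_bar, X.dist_comm z v, X.dist_comm z] at hz
          omega
        have hI := ih z _ _ _ f hd' c2 hM'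
        rw [← hI]
        have e2 := hP.2
        have e3 := hgz z hzv
        change (X.flip O v p y f z).trans (X.flipP O (X.flip O v p y f) z
          (X.dist (X.nb v ((f v).symm y)) z) (X.nb v ((f v).symm y)) (X.bar ((f v).symm y))
          (f (X.nb v ((f v).symm y)) (X.bar ((f v).symm y)))) = _
        rw [e2, e3]
        rfl
      · have e1 := hP.1 hz
        have e2 := hP.2
        rw [e1] at e2
        change (X.flip O v p y f z).trans (X.flipP O (X.flip O v p y f) z
          (X.dist (X.nb v ((f v).symm y)) z) (X.nb v ((f v).symm y)) (X.bar ((f v).symm y))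
          (f (X.nb v ((f v).symm y)) (X.bar ((f v).symm y)))) = f z
        rw [e2]
        have e3 : X.flip O v p y f z = f z :=
          (hgz z hzv).trans ((h2 H S L X O _ _ _ f c2 hM').2.1 z hz)
        rw [e3]
        rfl
    · rw [hG.2.2.2 ho z hzv, hF.2.2.2 ho z hzv]

/-- Packet FLI. -/
theorem fli (h0 : A_LLOC) (h1 : A_PLOC) (h2 : A_FREC) (h3 : A_FLM) : A_FLI := by
  intro H S L _ X O v p y f hO hy hM
  refine ⟨fun r => fli_long X h0 h2 h3 O hO r v p y f hy hM, ?_⟩
  funext z
  exact fli_flip X h1 h2 h3 O hO _ z v p y f rfl hy hM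

end Pool.Agent.Helper53.OE
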